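import Mathlib
import Pool.Agent.H314.ZN.Sec

/-!
# Sections of rescaled `ℓ_p` balls: the exponents `p` for one subspace, and sections of dimension
`1`, `2`, `n - 1`, `n`
-/

set_option autoImplicit false

open MeasureTheory

namespace Pool.Agent.Results.MP_fa837f_gt.FromTheCube

/-- Euclidean space `ℝⁿ` -/
abbrev E (n : ℕ) : Type := EuclideanSpace ℝ (Fin n)

/-- The closed unit ball of `ℓ_p^n`. -/
def lpBall (p : ℝ) (n : ℕ) : Set (E n) := {x | ∑ i, |x i| ^ p ≤ 1}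

/-- The map `D_t`, the diagonal matrix with entries `exp (t i)`. -/
noncomputable def scale {n : ℕ} (t : Fin n → ℝ) (x : E n) : E n :=
  WithLp.toLp 2 (fun i => Real.exp (t i) * x i)

/-- Linear subspaces of `ℝⁿ`. -/
abbrev Sub (n : ℕ) : Type := Submodule ℝ (E n)

/-- Lebesgue measure in a finite-dimensional Euclidean space, as a real number. -/
noncomputable def vol {V : Type} [NormedAddCommGroup V] [InnerProductSpace ℝ V]
    [FiniteDimensional ℝ V] [MeasurableSpace V] [BorelSpace V] (S : Set V) : ℝ := (volume S).toReal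

/-- The section `D_t B_p^n ∩ H`, as a subset of `H`. -/
def lpSection {n : ℕ} (p : ℝ) (H : Sub n) (t : Fin n → ℝ) : Set H :=
  {y | (y : E n) ∈ scale t '' lpBall p n}

/-- The section `D_t [-1,1]^n ∩ H`, as a subset of `H`. -/
def cubeSection {n : ℕ} (H : Sub n) (t : Fin n → ℝ) : Set H :=
  {y | ∀ i, |(y : E n) i| ≤ Real.exp (t i)}

/-- `F_{p,H}(t)`: the Lebesgue measure, on the subspace `H`, of `D_t B_p^n ∩ H`. -/
noncomputable def F {n : ℕ} (p : ℝ) (H : Sub n) (t : Fin n → ℝ) : ℝ := vol (lpSection p H t)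

/-- `F_{∞,H}(t)`: the Lebesgue measure, on `H`, of `D_t [-1,1]^n ∩ H`. -/
noncomputable def FInf {n : ℕ} (H : Sub n) (t : Fin n → ℝ) : ℝ := vol (cubeSection H t)

/-- The dimension of `H`. -/
noncomputable def dim {n : ℕ} (H : Sub n) : ℕ := Module.finrank ℝ H

/-- log-concavity of a nonnegative function on `ℝⁿ` -/
def LogConcave {n : ℕ} (f : (Fin n → ℝ) → ℝ) : Prop :=
  ∀ (s t : Fin n → ℝ) (l : ℝ), 0 ≤ l → l ≤ 1 →
    f s ^ l * f t ^ (1 - l) ≤ f (fun i => l * s i + (1 - l) * t i)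

/-- `F_{p,H}` is positive and log-concave -/
def Good {n : ℕ} (p : ℝ) (H : Sub n) : Prop :=
  (∀ t, 0 < F p H t) ∧ LogConcave (F p H)

/-- `F_{∞,H}` is positive and log-concave -/
def GoodInf {n : ℕ} (H : Sub n) : Prop :=
  (∀ t, 0 < FInf H t) ∧ LogConcave (FInf H)

/-- `n ≤ 4`, or the dimension of `H` is `1`, `2`, `n - 1` or `n` -/
def Small {n : ℕ} (H : Sub n) : Prop :=
  n ≤ 4 ∨ dim H = 1 ∨ dim H = 2 ∨ dim H + 1 = n ∨ dim H = n

theorem F_pos {n : ℕ} {H : Sub n} (h1 : 1 ≤ dim H) {p : ℝ} (hp : 1 ≤ p)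
    (t : Fin n → ℝ) : 0 < F p H t := by
  have h2 : 0 < F 1 H t := by
    have h3 : Good 1 H := by
      obtain ⟨A, hA⟩ := Pool.Agent.Results.MP_10bc19_gt.SectionsBelowTwo.exists_isometry H rfl
      exact H354ZN.SP.lc_of_TP h1 H A hA 1 le_rfl
        (Pool.Agent.Results.MP_10bc19_gt.SectionsBelowTwo.LC_below_two volume (H354ZN.SP.LL A)
          (H354ZN.SP.LL_inj A) 1 one_pos (by norm_num))
    exact h3.1 t
  exact h2.trans_le (H354ZN.SP.F_mono H 1 p one_pos hp t)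

/-- **Theorem.** Let `H` be a linear subspace of `ℝⁿ` of dimension at least `1`.
(1) If `F_{p,H}` is log-concave, so is `F_{q,H}` for `1 ≤ q ≤ p`.
(2) `F_{∞,H}` is log-concave if and only if `F_{p,H}` is log-concave for every `p ≥ 1`, and if and
only if `F_{p,H}` is log-concave for arbitrarily large `p`.
(3) If `n ≤ 4` or `dim H` is one of `1`, `2`, `n - 1`, `n`, then `F_{p,H}` is log-concave for every
`p ≥ 1`, and so is `F_{∞,H}`. -/
theorem result (n : ℕ) (H : Sub n) (h1 : 1 ≤ dim H) :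
    (∀ p q : ℝ, 1 ≤ q → q ≤ p → Good p H → Good q H) ∧
    (GoodInf H ↔ ∀ p : ℝ, 1 ≤ p → Good p H) ∧
    (GoodInf H ↔ ∀ M : ℝ, ∃ p : ℝ, M ≤ p ∧ 1 ≤ p ∧ Good p H) ∧
    (Small H → GoodInf H ∧ ∀ p : ℝ, 1 ≤ p → Good p H) := by
  have hA : GoodInf H → ∀ p : ℝ, 1 ≤ p → Good p H := fun h p hp =>
    ⟨F_pos h1 hp, H354ZN.SP.lc_of_inf H h1 h.2 p hp⟩
  have hpos : ∀ t, 0 < FInf H t := fun t =>
    (F_pos h1 le_rfl t).trans_le (H354ZN.SP.F_le H 1 one_pos t)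
  have hB : (∀ M : ℝ, ∃ p : ℝ, M ≤ p ∧ 1 ≤ p ∧ Good p H) → GoodInf H :=
    fun h => ⟨hpos, H354ZN.SP.inf_of_lc H fun M => by
      obtain ⟨p, a, b, c⟩ := h M
      exact ⟨p, a, b, c.2⟩⟩
  have hC : (∀ p : ℝ, 1 ≤ p → Good p H) → ∀ M : ℝ, ∃ p : ℝ, M ≤ p ∧ 1 ≤ p ∧ Good p H :=
    fun h M => ⟨max M 1, le_max_left _ _, le_max_right _ _, h _ (le_max_right _ _)⟩
  refine ⟨fun p q hq hqp h => ⟨F_pos h1 hq, H354ZN.SP.lc_down H h1 p q hq hqp h.2⟩,
    ⟨hA, fun h => hB (hC h)⟩, ⟨fun h => hC (hA h), hB⟩, fun hH => ?_⟩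
  have hD : ∀ p : ℝ, 1 ≤ p → Good p H := fun p hp =>
    H354ZN.SP.fin H354ZN.a_SEK H354ZN.a_CU2 H354ZN.t_CNV p hp n H h1 hH
  exact ⟨hB (hC hD), hD⟩

end Pool.Agent.Results.MP_fa837f_gt.FromTheCube
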